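import Mathlib

/-!
# Project PK (helper106): Klarner's constant is a computable real number (MP_fc5d3b_co)

Definitions: cells, `n`-ominoes, fixed `n`-ominoes (classes modulo translations), their number `t n`.
-/

namespace Pool.Agent.Q106.PK

/-- Two cells of the square lattice are adjacent when they share an edge. -/
def CAdj (p q : ℤ × ℤ) : Prop :=
  (p.1 = q.1 ∧ (p.2 = q.2 + 1 ∨ q.2 = p.2 + 1)) ∨ (p.2 = q.2 ∧ (p.1 = q.1 + 1 ∨ q.1 = p.1 + 1))

/-- A finite set of cells is connected when it is nonempty and any two of its cells are joined by a chain of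
cells of the set, consecutive ones being adjacent. -/
def Conn (P : Finset (ℤ × ℤ)) : Prop :=
  P.Nonempty ∧ ∀ p ∈ P, ∀ q ∈ P, Relation.ReflTransGen (fun a b => a ∈ P ∧ b ∈ P ∧ CAdj a b) p q

/-- `n`-ominoes. -/
def IsOmino (n : ℕ) (P : Finset (ℤ × ℤ)) : Prop := P.card = n ∧ Conn P

/-- The translate of `P` by `v`. -/
def tr (v : ℤ × ℤ) (P : Finset (ℤ × ℤ)) : Finset (ℤ × ℤ) := P.image (fun p => p + v)

theorem mem_tr {v p : ℤ × ℤ} {P : Finset (ℤ × ℤ)} : p ∈ tr v P ↔ p - v ∈ P := by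
  unfold tr
  rw [Finset.mem_image]
  constructor
  · rintro ⟨a, ha, rfl⟩; simpa using ha
  · intro h; exact ⟨p - v, h, by simp⟩

theorem tr_zero (P : Finset (ℤ × ℤ)) : tr 0 P = P := by
  ext p; simp [mem_tr]

theorem tr_tr (v w : ℤ × ℤ) (P : Finset (ℤ × ℤ)) : tr v (tr w P) = tr (v + w) P := by
  ext p; simp only [mem_tr]; rw [sub_sub]

theorem card_tr (v : ℤ × ℤ) (P : Finset (ℤ × ℤ)) : (tr v P).card = P.card :=
  Finset.card_image_of_injective _ (add_left_injective v)

theorem cadj_symm {p q : ℤ × ℤ} (h : CAdj p q) : CAdj q p := by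
  unfold CAdj at *; omega

theorem cadj_add {p q : ℤ × ℤ} (v : ℤ × ℤ) (h : CAdj p q) : CAdj (p + v) (q + v) := by
  unfold CAdj at *; simp only [Prod.fst_add, Prod.snd_add]; omega

theorem conn_tr {P : Finset (ℤ × ℤ)} (v : ℤ × ℤ) (h : Conn P) : Conn (tr v P) := by
  refine ⟨?_, ?_⟩
  · obtain ⟨p, hp⟩ := h.1
    exact ⟨p + v, by rw [mem_tr]; simpa using hp⟩
  · intro p hp q hq
    rw [mem_tr] at hp hq
    have key := h.2 _ hp _ hq
    have h2 : Relation.ReflTransGen (fun a b => a ∈ tr v P ∧ b ∈ tr v P ∧ CAdj a b)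
        ((fun x => x + v) (p - v)) ((fun x => x + v) (q - v)) := by
      refine key.lift (fun x => x + v) ?_
      rintro a b ⟨ha, hb, hab⟩
      refine ⟨?_, ?_, cadj_add v hab⟩
      · rw [mem_tr]; simpa using ha
      · rw [mem_tr]; simpa using hb
    simpa using h2

theorem isOmino_tr {n : ℕ} {P : Finset (ℤ × ℤ)} (v : ℤ × ℤ) (h : IsOmino n P) : IsOmino n (tr v P) :=
  ⟨by rw [card_tr]; exact h.1, conn_tr v h.2⟩

/-- Two `n`-ominoes are translation equivalent when one is a translate of the other. -/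
def ominoSetoid (n : ℕ) : Setoid {P : Finset (ℤ × ℤ) // IsOmino n P} where
  r P Q := ∃ v : ℤ × ℤ, Q.1 = tr v P.1
  iseqv :=
    { refl := fun P => ⟨0, (tr_zero P.1).symm⟩
      symm := by
        rintro P Q ⟨v, hv⟩
        exact ⟨-v, by rw [hv, tr_tr, neg_add_cancel, tr_zero]⟩
      trans := by
        rintro P Q R ⟨v, hv⟩ ⟨w, hw⟩
        exact ⟨w + v, by rw [hw, hv, tr_tr]⟩ }

/-- The number of fixed `n`-ominoes, i.e. of `n`-ominoes modulo translations. -/
noncomputable def t (n : ℕ) : ℕ := Nat.card (Quotient (ominoSetoid n))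

end Pool.Agent.Q106.PK
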