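import Mathlib
import Pool.Agent.Q106.PK.Def

/-!
# Project PK (helper106): statements of the lemma jobs

Goal (MP_fc5d3b_co): Klarner's constant `lam = lim t(n)^{1/n}` is a computable real number. Idea: every `n`-omino is the
union of two adjacent ominoes of sizes at least `(n-1)/4`, so `t(n) ≤ ∑ 4k(n-k) t(k) t(n-k)`, and by induction
`t(k) k^5 ≤ E^k` for `m ≤ k ≤ 4m` implies the same for all `k ≥ m`, hence `lam ≤ E`.
Every `S_XX` is one job: prove `theorem t_XX (hypotheses) : S_XX`.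
-/

namespace Pool.Agent.Q106.PK
open Filter Topology

/-- Normal form 1: the lexicographically smallest cell is the origin. -/
def LexA (P : Finset (ℤ × ℤ)) : Prop := ((0, 0) : ℤ × ℤ) ∈ P ∧ ∀ p ∈ P, 0 < p.1 ∨ (p.1 = 0 ∧ 0 ≤ p.2)

/-- Normal form 2: the smallest first coordinate is 0 and the smallest second coordinate is 0. -/
def BoxA (P : Finset (ℤ × ℤ)) : Prop :=
  (∀ p ∈ P, 0 ≤ p.1 ∧ 0 ≤ p.2) ∧ (∃ p ∈ P, p.1 = 0) ∧ (∃ p ∈ P, p.2 = 0)

/-- JOB LEXA: every nonempty finite set has exactly one translate in normal form 1.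
Proof: let `m` be the least first coordinate (`Finset.exists_min_image`) and, among the cells with first coordinate
`m`, let `(m, y)` be the one with least second coordinate; `v = -(m, y)`. Uniqueness: if `LexA (tr v P)` and
`LexA (tr w P)` then `-v ∈ P` and `-w ∈ P` (as `0 ∈ tr v P`), so `w - v` and `v - w` are lexicographically `≥ 0`
(`w - v = -v + w ∈ tr w P`), hence `v = w`. Use `mem_tr`. -/
def S_LEXA : Prop := ∀ P : Finset (ℤ × ℤ), P.Nonempty → ∃! v : ℤ × ℤ, LexA (tr v P)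

/-- JOB BOXA: every nonempty finite set has exactly one translate in normal form 2.
Proof: `v = -(least first coordinate, least second coordinate)` (`Finset.exists_min_image`); uniqueness coordinatewise. -/
def S_BOXA : Prop := ∀ P : Finset (ℤ × ℤ), P.Nonempty → ∃! v : ℤ × ℤ, BoxA (tr v P)

/-- JOB REP: `t n` is the number of `n`-ominoes in normal form, for every normal form `A` which selects exactly one
translate of every `n`-omino.
Proof: `Nat.card_congr` with the bijection `{P // IsOmino n P ∧ A P} → Quotient (ominoSetoid n)`, `P ↦ ⟦P⟧`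
(`Equiv.ofBijective`, `Nat.card_eq_of_bijective`). Injective: if `Q = tr v P`, `A P`, `A Q`, then `P = tr 0 P` and
`Q = tr v P`, so `v = 0` by uniqueness. Surjective: the class of `P` contains `tr v P` with `A (tr v P)`
(`isOmino_tr`). -/
def S_REP : Prop := ∀ (n : ℕ) (A : Finset (ℤ × ℤ) → Prop),
  (∀ P, IsOmino n P → ∃! v : ℤ × ℤ, A (tr v P)) →
  t n = Nat.card {P : Finset (ℤ × ℤ) // IsOmino n P ∧ A P}

/-- JOB BOX: an `n`-omino in normal form 2 lies in the box `[0,n)²`.
Proof: let `p ∈ P` with `p.1 = 0` and `q ∈ P`. A chain from `p` to `q` changes the first coordinate by at most 1 in each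
step, so for every integer `0 ≤ j ≤ q.1` some cell of `P` has first coordinate `j` (induction along
`Relation.ReflTransGen`: the claim that all `j` with `0 ≤ j ≤ b.1` are first coordinates of cells of `P` holds for
`b = p` and passes to neighbours). So `P.image Prod.fst ⊇ Finset.Icc 0 q.1`, which has `q.1 + 1` elements, and
`q.1 + 1 ≤ n`. The same with the second coordinate. -/
def S_BOX : Prop := ∀ (n : ℕ) (P : Finset (ℤ × ℤ)), IsOmino n P → BoxA P → ∀ p ∈ P, p.1 < n ∧ p.2 < n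

/-- JOB UNI: two connected sets with adjacent cells have a connected union.
Proof: `Relation.ReflTransGen.mono` inside each set, `cadj_symm` for the reverse direction. -/
def S_UNI : Prop := ∀ (X Y : Finset (ℤ × ℤ)) (x y : ℤ × ℤ), Conn X → Conn Y → x ∈ X → y ∈ Y → CAdj x y → Conn (X ∪ Y)

/-- JOB CUT: a nonempty set is connected iff every proper nonempty subset has a neighbour in the rest.
Proof: (→) take `a ∈ S` and `b ∈ P \ S` and a chain from `a` to `b`: some step leaves `S` (induction on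
`ReflTransGen`: if no step from `S` to `P \ S` exists, everything reachable from `a` is in `S`).
(←) for `p ∈ P` let `S` be the set of cells of `P` reachable from `p` (`Finset.filter`, classical); it contains `p`
and no cell of `S` is adjacent to a cell of `P \ S`, so `S = P`. -/
def S_CUT : Prop := ∀ P : Finset (ℤ × ℤ), P.Nonempty →
  (Conn P ↔ ∀ S : Finset (ℤ × ℤ), S ⊆ P → S.Nonempty → S ≠ P → ∃ a ∈ S, ∃ b ∈ P, b ∉ S ∧ CAdj a b)

/-- JOB COMP (uses CUT, UNI): removing a cell `b` from a connected set; the component of a remaining cell `q`.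
There is `C` with `q ∈ C ⊆ P \ {b}`, `C` connected, the rest `P \ C` connected, `C` has a cell adjacent to `b`, and `C` is
closed: no cell of `C` is adjacent to a cell of `P \ {b}` outside of `C`.
Proof: `C` = the cells reachable from `q` inside `P.erase b` (filter). `C` is connected (symmetry of adjacency).
By `S_CUT` for `P` and the set `C` (proper as `b ∉ C`) some `c ∈ C` is adjacent to a cell of `P` outside `C`; by
maximality that cell is `b`. `P \ C` connected: let `r ∈ P \ C`; show that `r` is joined to `b` inside `P \ C`: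
if `r ≠ b`, take the set `D` of cells reachable from `r` inside `P.erase b`; `D` is disjoint from `C`
(else `r ∈ C`), and by `S_CUT` for `P` and `D` some `d ∈ D` is adjacent to `b` as before; so `r → d → b` in `P \ C`. -/
def S_COMP : Prop := ∀ (P : Finset (ℤ × ℤ)) (b q : ℤ × ℤ), Conn P → b ∈ P → q ∈ P → q ≠ b →
  ∃ C : Finset (ℤ × ℤ), q ∈ C ∧ C ⊆ P.erase b ∧ Conn C ∧ Conn (P \ C) ∧ (∃ c ∈ C, CAdj c b) ∧
    (∀ c ∈ C, ∀ d ∈ P.erase b, CAdj c d → d ∈ C)

/-- JOB THIRD (uses COMP): if `Y` is connected with at least two cells, `b ∈ Y`, and `b` has a neighbour `a` outside of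
`Y`, then there is a connected `C ⊆ Y \ {b}` with `Y \ C` connected and `|Y| ≤ 3|C| + 1`.
Proof: `b` has exactly four neighbours `b ± e₁, b ± e₂`; `a` is one of them, so at most three of them are in `Y`. For every
neighbour `c ∈ Y` of `b` let `C_c` be the set of `S_COMP` with `q = c`. Every cell `q ≠ b` of `Y` lies in one of these
`C_c`: its component `C` (by `S_COMP` with `q`) contains a neighbour `c` of `b`; `C` and `C_c` are both connected, closed
and contain `c`, so `C = C_c` (closedness and chains). So `Y.erase b` is the union of at most three sets `C_c` and the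
largest has at least `(|Y| - 1)/3` cells (`Finset.card_biUnion_le`). It exists, as `Y` has a second cell. -/
def S_THIRD : Prop := ∀ (Y : Finset (ℤ × ℤ)) (a b : ℤ × ℤ), Conn Y → 2 ≤ Y.card → b ∈ Y → a ∉ Y → CAdj a b →
  ∃ C : Finset (ℤ × ℤ), C ⊆ Y.erase b ∧ Conn C ∧ Conn (Y \ C) ∧ Y.card ≤ 3 * C.card + 1

/-- JOB LEAF (uses COMP): a connected set with at least two cells splits into two connected parts.
Proof: take `b ∈ P`, another cell `q`, and `C` from `S_COMP`; `X = C`, `Y = P \ C`. They are adjacent because `c ∈ C` is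
adjacent to `b ∈ P \ C`. -/
def S_LEAF : Prop := ∀ P : Finset (ℤ × ℤ), Conn P → 2 ≤ P.card →
  ∃ X Y : Finset (ℤ × ℤ), Disjoint X Y ∧ X ∪ Y = P ∧ Conn X ∧ Conn Y ∧ ∃ a ∈ X, ∃ b ∈ Y, CAdj a b

/-- JOB SPLIT (uses THIRD, LEAF, UNI): balanced splitting.
Proof: among all splittings `P = X ∪ Y` (disjoint, connected, `a ∈ X`, `b ∈ Y` adjacent, `|X| ≤ |Y|`) take one with
`|Y|` minimal (`Nat.find` or strong induction on `|Y|`; one exists by LEAF, exchanging `X` and `Y` if necessary, with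
`cadj_symm`). Suppose `4|X| + 1 < |P| = |X| + |Y|`, i.e. `3|X| + 1 < |Y|`. Then `|Y| ≥ 2`; take `C ⊆ Y.erase b` from THIRD
(for `Y, a, b`): `|Y| ≤ 3|C| + 1`. New splitting: `C` and `P \ C = X ∪ (Y \ C)`, connected by UNI (`a ∈ X`,
`b ∈ Y \ C`). They are adjacent: by `Conn Y` (or because `Conn P`) some cell of `C` is adjacent to a cell of `Y \ C`
(use S_CUT for `Y` and `C`). `|C| ≤ |Y| - 1 < |Y|`, and `|P \ C| = |X| + |Y| - |C| < |Y|` because `|X| < (|Y|-1)/3 ≤ |C|`.
So both parts are smaller than `|Y|`: contradiction to minimality. Finally `2|X| ≤ |P|` from `|X| ≤ |Y|`. -/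
def S_SPLIT : Prop := ∀ (n : ℕ) (P : Finset (ℤ × ℤ)), IsOmino n P → 2 ≤ n →
  ∃ X Y : Finset (ℤ × ℤ), Disjoint X Y ∧ X ∪ Y = P ∧ Conn X ∧ Conn Y ∧ n ≤ 4 * X.card + 1 ∧ 2 * X.card ≤ n ∧
    ∃ a ∈ X, ∃ b ∈ Y, CAdj a b

/-- JOB FIN (uses BOX): there are finitely many `n`-ominoes in normal form 2. Proof: subset of the powerset of
`Finset.Ico 0 n ×ˢ Finset.Ico 0 n` by BOX (and `0 ≤` from `BoxA`). -/
def S_FIN : Prop := ∀ n : ℕ, Set.Finite {P : Finset (ℤ × ℤ) | IsOmino n P ∧ BoxA P}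

/-- JOB COVER (uses SPLIT, BOXA): every `n`-omino is a translate of `X ∪ tr (c + d - c') Y` with smaller ominoes `X, Y` in
normal form 2, `c ∈ X`, `c' ∈ Y` and `d` one of the four unit vectors.
Proof: take `X₀, Y₀, a, b` from SPLIT, `k = |X₀|` (`1 ≤ k ≤ n - 1` as both parts are nonempty), `X₀ = tr v X`, `Y₀ = tr w Y` with
`X, Y` in normal form 2 (BOXA gives `u` with `BoxA (tr u X₀)`; `X = tr u X₀`, `v = -u`), `a = c + v`, `b = c' + w`, `b = a + d`
(adjacency). Then `P = X₀ ∪ Y₀ = tr v (X ∪ tr (w - v) Y)` and `w - v = c + d - c'`. -/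
def S_COVER : Prop := ∀ (n : ℕ) (P : Finset (ℤ × ℤ)), IsOmino n P → 2 ≤ n →
  ∃ (k : ℕ) (X Y : Finset (ℤ × ℤ)) (c c' d v : ℤ × ℤ), 1 ≤ k ∧ k ≤ n - 1 ∧ n ≤ 4 * k + 1 ∧ 2 * k ≤ n ∧
    IsOmino k X ∧ BoxA X ∧ IsOmino (n - k) Y ∧ BoxA Y ∧ c ∈ X ∧ c' ∈ Y ∧
    d ∈ ({(1, 0), (-1, 0), (0, 1), (0, -1)} : Finset (ℤ × ℤ)) ∧ P = tr v (X ∪ tr (c + d - c') Y)

/-- JOB INEQ (uses COVER, REP, BOXA, FIN): the splitting inequality.
Proof: let `F k` be the finite set of `k`-ominoes in normal form 2 (`(S_FIN k).toFinset`); `t k = (F k).card` by REP and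
BOXA (`Nat.card_coe_set_eq`, `Set.ncard_eq_toFinset_card`; an omino is nonempty). Let `K` be the index set of the sum.
For a finite set `Q` let `norm Q` be a chosen translate in normal form 2 (choice from BOXA for `Q` nonempty; `∅` otherwise).
Then `norm (tr v Q) = norm Q`-type uniqueness: if `P` is in normal form 2 and `P = tr v Q`, then `norm Q = P` by the uniqueness
in BOXA. So by COVER every `P ∈ F n` is `norm (X ∪ tr (c + d - c') Y)` for some `k ∈ K`, `X ∈ F k`, `Y ∈ F (n-k)`, `c ∈ X`,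
`c' ∈ Y`, `d ∈ D` (`|D| ≤ 4`), i.e. `F n ⊆ K.biUnion (fun k => (F k).biUnion fun X => (F (n-k)).biUnion fun Y =>
((X ×ˢ Y) ×ˢ D).image (…))`, and the cardinality is at most `∑_{k ∈ K} |F k| |F (n-k)| · (k · (n-k)) · 4`
(`Finset.card_biUnion_le`, `Finset.card_image_le`, `Finset.card_product`, `Finset.sum_le_card_nsmul`). -/
def S_INEQ : Prop := ∀ n : ℕ, 2 ≤ n →
  t n ≤ ∑ k ∈ (Finset.Icc 1 (n - 1)).filter (fun k => n ≤ 4 * k + 1 ∧ 2 * k ≤ n), 4 * k * (n - k) * t k * t (n - k)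

/-- JOB BOUND (uses INEQ): the induction.
Proof: strong induction on `n`. `n ≤ 4m`: hypothesis. `n ≥ 4m + 1`: for every `k` in the index set, `m ≤ k`
(from `n ≤ 4k + 1`), `m ≤ n - k < n`, `k < n`, so `t k ≤ E^k / k^5`, `t (n-k) ≤ E^(n-k)/(n-k)^5`. Put `u = k (n-k)`. The
summand times `n^5` is at most `4 u n^5 E^n / u^5 = 4 n^5 E^n / u^4`. For `(n-1)/4 ≤ k ≤ n/2` one has `8u ≥ n²`
(`8k(n-k) ≥ n²` for `n ≥ 3`: `(2k - n/2 + 1/2)`-type estimate, or `nlinarith`), so the summand times `n^5` is at most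
`4·8^4 E^n / n^3 = 16384 E^n / n^3`. There are at most `n/2` summands, so `t n · n^5 ≤ 8192 E^n / n² ≤ E^n`, since
`n ≥ 4·36 + 1 = 145` and `145² > 8192`. -/
def S_BOUND : Prop := ∀ (m : ℕ) (E : ℝ), 36 ≤ m → 0 < E →
  (∀ k : ℕ, m ≤ k → k ≤ 4 * m → (t k : ℝ) * (k : ℝ) ^ 5 ≤ E ^ k) →
  ∀ n : ℕ, m ≤ n → (t n : ℝ) * (n : ℝ) ^ 5 ≤ E ^ n

/-- Lexicographic order of cells. -/
def lx (a b : ℤ × ℤ) : Prop := a.1 < b.1 ∨ (a.1 = b.1 ∧ a.2 < b.2)

/-- JOB CAT (uses UNI): concatenation of an `m`-omino and an `n`-omino in normal form 1.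
Proof: let `z` be the lexicographically largest cell of `P` (`Finset.exists_max_image` for the first coordinate, then for the
second one among the cells with this first coordinate), `w = z + (0,1)`. All cells `q + w`, `q ∈ Q`, are lexicographically
`≥ w > z ≥` all cells of `P`; so the parts are disjoint, the union has `m + n` cells; connected by UNI
(`z` and `w = (0,0) + w ∈ tr w Q` are adjacent, `conn_tr`); `LexA` for the union since `(0,0) ∈ P` and the new cells are
larger than `z`. -/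
def S_CAT : Prop := ∀ (m n : ℕ) (P Q : Finset (ℤ × ℤ)), IsOmino m P → LexA P → IsOmino n Q → LexA Q →
  ∃ w : ℤ × ℤ, IsOmino (m + n) (P ∪ tr w Q) ∧ LexA (P ∪ tr w Q) ∧ ∀ a ∈ P, ∀ b ∈ tr w Q, lx a b

/-- JOB CATI: the parts are determined by the union. Proof: if `P ≠ P'`, then by `|P| = |P'|` there are `x ∈ P \ P'` and
`y ∈ P' \ P`; `x ∈ Q'` and `y ∈ Q` (unions are equal), so `lx x y` (from `P, Q`) and `lx y x` (from `P', Q'`), a contradiction.
`Q = (P ∪ Q) \ P` because `P` and `Q` are disjoint (`lx` is irreflexive). -/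
def S_CATI : Prop := ∀ P Q P' Q' : Finset (ℤ × ℤ), P ∪ Q = P' ∪ Q' → P.card = P'.card →
  (∀ a ∈ P, ∀ b ∈ Q, lx a b) → (∀ a ∈ P', ∀ b ∈ Q', lx a b) → P = P' ∧ Q = Q'

/-- JOB SUPER (uses REP, LEXA, BOXA, FIN, CAT, CATI): supermultiplicativity.
Proof: let `L k = {P // IsOmino k P ∧ LexA P}`; `t k = Nat.card (L k)` (REP, LEXA; an omino is nonempty). Map
`(P, Q) ∈ L m × L n` to `P ∪ tr w Q` with `w` chosen from CAT. Injective: by CATI `P = P'` and `tr w Q = tr w' Q'`; then
`Q = Q'` by the uniqueness in LEXA. `Nat.card_prod`, `Nat.card_le_card_of_injective` (needs `Finite (L (m+n))`).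
Finiteness of `L k`: `P ↦` its translate in normal form 2 is injective (uniqueness in LEXA) into the finite set of FIN. -/
def S_SUPER : Prop := ∀ m n : ℕ, 1 ≤ m → 1 ≤ n → t m * t n ≤ t (m + n)

/-- JOB ONE (uses REP, BOXA, FIN): `t n ≥ 1` for `n ≥ 1`: the row `{(0,0), …, (n-1,0)}` is an `n`-omino, and there are
finitely many classes (FIN with REP and BOXA). -/
def S_ONE : Prop := ∀ n : ℕ, 1 ≤ n → 1 ≤ t n

/-- JOB LIM (uses SUPER, ONE, BOUND): the limit exists.
Proof: Fekete's lemma in Mathlib (`Subadditive`, `Subadditive.tendsto_lim`) for `u n = - log (t n)` (with `u 0 = 0`;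
`log 0 = 0` and `t 0 = 0` do no harm: define `u n = if n = 0 then 0 else - log (t n)` ), bounded below because by BOUND with
`m = 36` and a large `E` (e.g. `E = 1 + ∑_{k ≤ 144} t k · k^5`, so that `t k k^5 ≤ E ≤ E^k`), `t n ≤ E^n` for `n ≥ 36`.
Then `t n ^ (1/n) = exp (log (t n) / n)` for `n ≥ 1`. Also `0 < lam` (as `t n ≥ 1`, the limit is `≥ 1`). -/
def S_LIM : Prop := ∃ lam : ℝ, 1 ≤ lam ∧ Tendsto (fun n : ℕ => (t n : ℝ) ^ (1 / (n : ℝ))) atTop (𝓝 lam)

/-- JOB UP (uses BOUND): upper bounds for the limit.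
Proof: by BOUND, `t n ≤ t n · n^5 ≤ E^n` for all `n ≥ m`, so `t n ^ (1/n) ≤ E`; `le_of_tendsto'`/`le_of_tendsto`
(`Real.rpow_natCast`, `Real.pow_rpow_inv_natCast`, `Real.rpow_le_rpow`). -/
def S_UP : Prop := ∀ lam : ℝ, Tendsto (fun n : ℕ => (t n : ℝ) ^ (1 / (n : ℝ))) atTop (𝓝 lam) →
  ∀ (m : ℕ) (E : ℝ), 36 ≤ m → 0 < E → (∀ k : ℕ, m ≤ k → k ≤ 4 * m → (t k : ℝ) * (k : ℝ) ^ 5 ≤ E ^ k) → lam ≤ E

/-- JOB EXPL (uses UP): for every `m ≥ 36` some `k` with `m ≤ k ≤ 4m` has `lam ^ k ≤ t k * k ^ 5`.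
Proof: otherwise `t k * k^5 < lam^k` for the finitely many `k ∈ [m, 4m]`, so by continuity of `E ↦ E^k` there is
`0 < E < lam` with `t k * k^5 ≤ E^k` for all of them (here `lam ≥ 1 > 0`), and UP gives `lam ≤ E`, a contradiction. -/
def S_EXPL : Prop := ∀ lam : ℝ, 1 ≤ lam → Tendsto (fun n : ℕ => (t n : ℝ) ^ (1 / (n : ℝ))) atTop (𝓝 lam) →
  ∀ m : ℕ, 36 ≤ m → ∃ k : ℕ, m ≤ k ∧ k ≤ 4 * m ∧ lam ^ k ≤ (t k : ℝ) * (k : ℝ) ^ 5

/-- `p` is admissible for `m`: `t k · k^5 · m^k ≤ p^k` for all `m ≤ k ≤ 4m`. -/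
def Adm (f : ℕ → ℕ) (m p : ℕ) : Prop := ∀ k : ℕ, k < 4 * m + 1 → m ≤ k → f k * k ^ 5 * m ^ k ≤ p ^ k

/-- JOB PEX: for `m ≥ 1` there is an admissible `p`. Proof: `p = m · (1 + ∑_{k < 4m+1} f k * k^5)`; for `k ≥ 1`,
`p^k = m^k S^k ≥ m^k S ≥ m^k f k k^5`. (`m ≤ k` and `m ≥ 1` give `k ≥ 1`.) -/
def S_PEX : Prop := ∀ (f : ℕ → ℕ) (m : ℕ), 1 ≤ m → ∃ p, Adm f m p

/-- JOB PCOMP: for computable `f` the least admissible `p` (for `m + 1` in place of `m`) is a computable function.
Statement: there is a computable `g` such that `g m` is the least admissible number for `m + 1`.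
Proof: `Adm f m p` is a computable relation: bounded quantifier over `k < 4m+1` of a comparison of computable
functions. Easiest: write the Boolean test `(List.range (4*m+1)).all (fun k => decide (m ≤ k → f k * k^5 * m^k ≤ p^k))`
or compute the number of bad `k` by primitive recursion (`Computable.nat_rec`), then use `Partrec.rfind` (or
`Nat.rfind`) and PEX for totality; `Primrec` of `pow` from `Nat.Primrec.pow` / `Primrec₂`. -/
def S_PCOMP : Prop := ∀ f : ℕ → ℕ, Computable f →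
  ∃ g : ℕ → ℕ, Computable g ∧ ∀ m, Adm f (m + 1) (g m) ∧ ∀ p, Adm f (m + 1) p → g m ≤ p

/-- JOB CONV: convergence of the least admissible numbers. Let `x k = t k ^ (1/k) → lam`, `g m` the least admissible
number for `m + 1`. Then `g m / (m+1) → lam` provided `lam ≤ g m / (m+1)` for large `m`.
Proof: `g m ≥ 1` (as `t k ≥ 1` by S_ONE). If `g m ≥ 1`, minimality gives `k ∈ [m+1, 4(m+1)]` with
`(g m - 1)^k < t k · k^5 · (m+1)^k`, so `(g m - 1)/(m+1) < t k ^(1/k) · k^(5/k)`. Since `t k ^ (1/k) · k^(5/k) → lam`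
(`k^(5/k) → 1`: `tendsto_rpow_div` or via `Real.exp` and `log k / k → 0`), for every `ε > 0` and large `m`:
`g m / (m+1) ≤ lam + ε + 1/(m+1)`. Squeeze. -/
def S_CONV : Prop := ∀ (lam : ℝ) (g : ℕ → ℕ), 1 ≤ lam →
  Tendsto (fun n : ℕ => (t n : ℝ) ^ (1 / (n : ℝ))) atTop (𝓝 lam) →
  (∀ m, ∀ p, Adm t (m + 1) p → g m ≤ p) →
  (∀ m : ℕ, 36 ≤ m → lam ≤ (g m : ℝ) / ((m : ℝ) + 1)) →
  Tendsto (fun m : ℕ => (g m : ℝ) / ((m : ℝ) + 1)) atTop (𝓝 lam)

/-- JOB MONO: from computable upper approximations to a strictly decreasing computable sequence.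
Proof: define by recursion the pair `M n = (a, b)` with `a / b = min_{N₀ ≤ j ≤ N₀ + n} g j / (j+1)` (`M 0 = (g N₀, N₀+1)`,
`M (n+1) = if g (N₀+n+1) * b < a * (N₀+n+2) then (g (N₀+n+1), N₀+n+2) else (a, b)`), computable by
`Computable.nat_rec`; then `a' n = a (n+1) + b`, `b' n = b (n+1)`, i.e. `β n = a/b + 1/(n+1)`. Strictly decreasing, `β n → lam`
because `lam ≤ M n ≤ g (N₀+n)/(N₀+n+1)`. -/
def S_MONO : Prop := ∀ (lam : ℝ) (g : ℕ → ℕ) (N₀ : ℕ), Computable g →
  (∀ m : ℕ, N₀ ≤ m → lam ≤ (g m : ℝ) / ((m : ℝ) + 1)) →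
  Tendsto (fun m : ℕ => (g m : ℝ) / ((m : ℝ) + 1)) atTop (𝓝 lam) →
  ∃ a b : ℕ → ℕ, Computable a ∧ Computable b ∧ (∀ n, 0 < b n) ∧
    StrictAnti (fun n => (a n : ℚ) / (b n : ℚ)) ∧
    Tendsto (fun n => (a n : ℝ) / (b n : ℝ)) atTop (𝓝 lam)

/-- Bit `i` of `w`. -/
def bt (w i : ℕ) : Prop := w / 2 ^ i % 2 = 1

instance (w i : ℕ) : Decidable (bt w i) := by unfold bt; infer_instance

/-- Adjacency of the cells `(i / n, i % n)` and `(j / n, j % n)` of the box `[0,n)²`. -/
def nadj (n i j : ℕ) : Prop :=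
  (i / n = j / n ∧ (i % n = j % n + 1 ∨ j % n = i % n + 1)) ∨ (i % n = j % n ∧ (i / n = j / n + 1 ∨ j / n = i / n + 1))

instance (n i j : ℕ) : Decidable (nadj n i j) := by unfold nadj; infer_instance

/-- If `s` is a proper nonempty submask of `w`, then some cell of `s` is adjacent to a cell of `w` outside `s`. -/
def Sub (n w s : ℕ) : Prop :=
  (∀ i < n * n, bt s i → bt w i) → (∃ i < n * n, bt s i) → (∃ i < n * n, bt w i ∧ ¬ bt s i) →
    ∃ i < n * n, ∃ j < n * n, bt s i ∧ bt w j ∧ ¬ bt s j ∧ nadj n i j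

instance (n w s : ℕ) : Decidable (Sub n w s) := by unfold Sub; infer_instance

/-- The mask `w < 2^(n²)` codes an `n`-omino in normal form 2 inside the box `[0,n)²`. -/
def Good (n w : ℕ) : Prop :=
  ((List.range (n * n)).filter (fun i => bt w i)).length = n ∧ (∃ i < n, bt w i) ∧ (∃ x < n, bt w (x * n)) ∧
    ∀ s < 2 ^ (n * n), Sub n w s

instance (n w : ℕ) : Decidable (Good n w) := by unfold Good; infer_instance

/-- The number of good masks. -/
def cnt (n : ℕ) : ℕ := ((List.range (2 ^ (n * n))).filter (fun w => Good n w)).length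

/-- JOB PRIM: `cnt` is primitive recursive. Proof: Mathlib's `PrimrecRel.exists_lt`, `PrimrecRel.forall_lt`,
`PrimrecPred.and/or/not`, `Primrec.eq`, `Primrec.nat_div`, `Primrec.nat_mod`, powers (`Nat.Primrec.pow` or `nat_rec`),
`Primrec.listFilter_listRange` / `PrimrecRel.listFilter`, `Primrec.list_length`, `Primrec.list_range`. It may help to first show
`Primrec₂`/`PrimrecRel` for `bt`, then for each of the inner formulas as relations on tuples. (The relation of three and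
four variables: view them as relations on `ℕ × (ℕ × ℕ)` etc.) -/
def S_PRIM : Prop := Primrec cnt

/-- JOB DEC1: the decoding map. For `w : ℕ` let `dec n w` be the set of the cells `(i / n, i % n)`, `i < n * n`, `bt w i`.
Every subset of `[0,n)²` is `dec n w` for exactly one `w < 2^(n²)`.
Proof: `w = ∑_{i ∈ I} 2^i` (`Finset.sum` of distinct powers; Mathlib: `Nat.bitIndices`, `Finset.equivBitIndices`,
`Nat.testBit` and `Nat.eq_of_testBit_eq`; `bt w i ↔ Nat.testBit w i = true`). -/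
noncomputable def dec (n w : ℕ) : Finset (ℤ × ℤ) :=
  ((Finset.range (n * n)).filter (fun i => bt w i)).image (fun i => (((i / n : ℕ) : ℤ), ((i % n : ℕ) : ℤ)))

/-- See the docstring of `dec` (JOB DEC1). -/
def S_DEC1 : Prop := ∀ (n : ℕ) (P : Finset (ℤ × ℤ)), (∀ p ∈ P, 0 ≤ p.1 ∧ p.1 < n ∧ 0 ≤ p.2 ∧ p.2 < n) →
  ∃! w : ℕ, w < 2 ^ (n * n) ∧ dec n w = P

/-- JOB DEC2 (uses CUT, DEC1, BOX is not needed): for `w < 2^(n²)`, `Good n w` iff `dec n w` is an `n`-omino in normal form 2.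
Proof: the map `i ↦ (i / n, i % n)` is injective on `i < n*n` (for `n ≥ 1`; for `n = 0` both sides are false: an omino is
nonempty); `(dec n w).card` is the length of the filtered list; the cell of `i` has first coordinate 0 iff `i < n` and
second coordinate 0 iff `i = x * n`; connectedness by CUT, with the subsets `S` of `dec n w` being exactly `dec n s`,
`s < 2^(n²)` with `bt s i → bt w i` (DEC1); `nadj n i j ↔ CAdj` of the cells. -/
def S_DEC2 : Prop := ∀ n w : ℕ, w < 2 ^ (n * n) → (Good n w ↔ IsOmino n (dec n w) ∧ BoxA (dec n w))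

/-- JOB MASK (uses REP, BOXA, BOX, DEC1, DEC2): `t n = cnt n` for all `n` (both are 0 for `n = 0`).
Proof: REP + BOXA: `t n = Nat.card {P // IsOmino n P ∧ BoxA P}`; by BOX and DEC1/DEC2 the map `w ↦ dec n w` is a bijection
from the good masks `w < 2^(n²)` onto this set; `cnt n` is the number of good masks (`List.length` of a filtered range =
`Finset.card` of the filtered `Finset.range`). -/
def S_MASK : Prop := ∀ n : ℕ, t n = cnt n

end Pool.Agent.Q106.PK
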