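import Mathlib
import Pool.Agent.Q106.PK.Stm

namespace Pool.Agent.Q106.PK.ConvA

open Pool.Agent.Q106.PK
open Filter Topology

theorem ev_le (lam E : ℝ) (h : Tendsto (fun n : ℕ => (t n : ℝ) ^ (1 / (n : ℝ))) atTop (𝓝 lam)) (hE : lam < E) :
    ∀ᶠ k : ℕ in atTop, (t k : ℝ) * (k : ℝ) ^ 5 ≤ E ^ k := by
  have h1 : Tendsto (fun k : ℕ => ((k : ℝ) ^ (1 / (k : ℝ))) ^ 5) atTop (𝓝 1) := by
    have := (tendsto_rpow_div.comp (tendsto_natCast_atTop_atTop (R := ℝ))).pow 5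
    simpa using this
  have h2 := h.mul h1
  rw [mul_one] at h2
  have h3 := (tendsto_order.1 h2).2 E hE
  filter_upwards [h3, eventually_ge_atTop 1] with k hk hk1
  have hk0 : (k : ℝ) ≠ 0 := by positivity
  have hkk : k ≠ 0 := by omega
  have e1 : ((t k : ℝ) ^ (1 / (k : ℝ))) ^ k = (t k : ℝ) := by
    rw [one_div]; exact Real.rpow_inv_natCast_pow (by positivity) hkk
  have e2 : (((k : ℝ) ^ (1 / (k : ℝ))) ^ 5) ^ k = (k : ℝ) ^ 5 := by
    rw [← pow_mul, mul_comm, pow_mul, one_div, Real.rpow_inv_natCast_pow (by positivity) hkk]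
  have e3 : ((t k : ℝ) ^ (1 / (k : ℝ)) * ((k : ℝ) ^ (1 / (k : ℝ))) ^ 5) ^ k = (t k : ℝ) * (k : ℝ) ^ 5 := by
    rw [mul_pow, e1, e2]
  rw [← e3]
  exact pow_le_pow_left₀ (by positivity) hk.le k

theorem t_CONV : S_CONV := by
  intro lam g h1 hlim hmin hlow
  rw [tendsto_order]
  constructor
  · intro a ha
    filter_upwards [eventually_ge_atTop 36] with m hm
    exact lt_of_lt_of_le ha (hlow m hm)
  · intro a ha
    set E : ℝ := (lam + a) / 2 with hE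
    have hE1 : lam < E := by rw [hE]; linarith
    have hE2 : E < a := by rw [hE]; linarith
    have hE0 : 0 < E := by linarith
    obtain ⟨K, hK⟩ := eventually_atTop.1 (ev_le lam E hlim hE1)
    have hsmall : ∀ᶠ m : ℕ in atTop, 1 / ((m : ℝ) + 1) < a - E := by
      have := tendsto_one_div_add_atTop_nhds_zero_nat (𝕜 := ℝ)
      exact (tendsto_order.1 this).2 _ (by linarith)
    filter_upwards [hsmall, eventually_ge_atTop K] with m hm hmK
    have hm1 : (0 : ℝ) < (m : ℝ) + 1 := by positivity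
    have hadm : Adm t (m + 1) ⌈((m : ℝ) + 1) * E⌉₊ := by
      intro k hk1 hk2
      have hk := hK k (by omega)
      have hc : ((m : ℝ) + 1) * E ≤ (⌈((m : ℝ) + 1) * E⌉₊ : ℝ) := Nat.le_ceil _
      have h5 : ((t k : ℝ) * (k : ℝ) ^ 5) * ((m : ℝ) + 1) ^ k ≤ (⌈((m : ℝ) + 1) * E⌉₊ : ℝ) ^ k := by
        calc ((t k : ℝ) * (k : ℝ) ^ 5) * ((m : ℝ) + 1) ^ k ≤ E ^ k * ((m : ℝ) + 1) ^ k := by
              exact mul_le_mul_of_nonneg_right hk (by positivity)
          _ = (((m : ℝ) + 1) * E) ^ k := by rw [mul_pow, mul_comm]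
          _ ≤ _ := pow_le_pow_left₀ (by positivity) hc k
      exact_mod_cast h5
    have hg := hmin m _ hadm
    have hg' : (g m : ℝ) ≤ (⌈((m : ℝ) + 1) * E⌉₊ : ℝ) := by exact_mod_cast hg
    have hc2 : (⌈((m : ℝ) + 1) * E⌉₊ : ℝ) < ((m : ℝ) + 1) * E + 1 := Nat.ceil_lt_add_one (by positivity)
    rw [div_lt_iff₀ hm1]
    have h6 : 1 < (a - E) * ((m : ℝ) + 1) := by
      rwa [div_lt_iff₀ hm1] at hm
    nlinarith

end Pool.Agent.Q106.PK.ConvA
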