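import Mathlib
import Pool.Agent.Q106.PK.Stm
import Pool.Agent.Q229.PK_MONO

/-!
# Project PK: the strictly decreasing sequence, explicit form
-/

namespace Pool.Agent.Q106.PK
open Filter Topology

/-- the running minimum is the least of the quotients -/
theorem mono2_least (g : ℕ → ℕ) (N n : ℕ) :
    IsLeast {x : ℚ | ∃ j : ℕ, N ≤ j ∧ j ≤ N + n ∧ x = (g j : ℚ) / ((j : ℚ) + 1)}
      (((mono_min g N n).1 : ℚ) / ((mono_min g N n).2 : ℚ)) := by
  induction n with
  | zero =>
    constructor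
    · exact ⟨N, le_rfl, le_rfl, by rw [mono_zero]; push_cast; rfl⟩
    · rintro x ⟨j, h1, h2, rfl⟩
      have : j = N := by omega
      subst this
      rw [mono_zero]; push_cast; exact le_rfl
  | succ n ih =>
    constructor
    · rw [mono_succ]
      rcases mono_step_eq g N n (mono_min g N n) with ⟨h, -⟩ | ⟨h, -⟩
      · rw [h]
        obtain ⟨j, h1, h2, h3⟩ := ih.1
        exact ⟨j, h1, by omega, h3⟩
      · rw [h]
        refine ⟨N + n + 1, by omega, by omega, ?_⟩
        push_cast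
        congr 1
        ring
    · rintro x ⟨j, h1, h2, rfl⟩
      rcases Nat.lt_or_ge (N + n) j with hj | hj
      · have hj' : j = N + n + 1 := by omega
        subst hj'
        rw [mono_succ]
        rcases mono_step_eq g N n (mono_min g N n) with ⟨h, h'⟩ | ⟨h, -⟩
        · rw [h]
          have h4 : (0 : ℚ) < ((mono_min g N n).2 : ℚ) := by exact_mod_cast mono_pos g N n
          have h5 : (0 : ℚ) < ((N + n + 1 : ℕ) : ℚ) + 1 := by positivity
          rw [div_le_div_iff₀ h4 h5]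
          have h6 : ((mono_min g N n).1 : ℚ) * ((N + n + 2 : ℕ) : ℚ) ≤
              (g (N + n + 1) : ℚ) * ((mono_min g N n).2 : ℚ) := by exact_mod_cast h'
          have h7 : ((N + n + 1 : ℕ) : ℚ) + 1 = ((N + n + 2 : ℕ) : ℚ) := by push_cast; ring
          rw [h7]
          exact h6
        · rw [h]
          have h7 : ((N + n + 1 : ℕ) : ℚ) + 1 = ((N + n + 2 : ℕ) : ℚ) := by push_cast; ring
          rw [h7]
      · exact (mono_le g N n).trans (ih.2 ⟨j, h1, hj, rfl⟩)

theorem t_MONO2 (lam : ℝ) (g : ℕ → ℕ) (N : ℕ) (hg : Computable g)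
    (hlow : ∀ m : ℕ, N ≤ m → lam ≤ (g m : ℝ) / ((m : ℝ) + 1))
    (hlim : Tendsto (fun m : ℕ => (g m : ℝ) / ((m : ℝ) + 1)) atTop (𝓝 lam)) :
    ∃ a b : ℕ → ℕ, Computable a ∧ Computable b ∧ (∀ n, 0 < b n) ∧
      (∀ n : ℕ, ∃ μ : ℚ, IsLeast {x : ℚ | ∃ j : ℕ, N ≤ j ∧ j ≤ N + n ∧ x = (g j : ℚ) / ((j : ℚ) + 1)} μ ∧
        (a n : ℚ) / (b n : ℚ) = μ + 1 / ((n : ℚ) + 1)) ∧
      StrictAnti (fun n => (a n : ℚ) / (b n : ℚ)) ∧
      Tendsto (fun n => (a n : ℝ) / (b n : ℝ)) atTop (𝓝 lam) := by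
  have hfst : Computable fun n => (mono_min g N n).1 := Computable.fst.comp (mono_comp g N hg)
  have hsnd : Computable fun n => (mono_min g N n).2 := Computable.snd.comp (mono_comp g N hg)
  have hadd : Computable₂ ((· + ·) : ℕ → ℕ → ℕ) := Primrec.nat_add.to_comp
  have hmul : Computable₂ ((· * ·) : ℕ → ℕ → ℕ) := Primrec.nat_mul.to_comp
  have hpos : ∀ n, (0 : ℝ) < ((mono_min g N n).2 : ℝ) := fun n => by exact_mod_cast mono_pos g N n
  have hposq : ∀ n, (0 : ℚ) < ((mono_min g N n).2 : ℚ) := fun n => by exact_mod_cast mono_pos g N n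
  have e : ∀ n : ℕ, (((mono_min g N n).1 * (n + 1) + (mono_min g N n).2 : ℕ) : ℚ) /
      (((mono_min g N n).2 * (n + 1) : ℕ) : ℚ) =
      ((mono_min g N n).1 : ℚ) / ((mono_min g N n).2 : ℚ) + 1 / ((n : ℚ) + 1) := by
    intro n
    have h1 := (hposq n).ne'
    have h2 : ((n : ℚ) + 1) ≠ 0 := by positivity
    push_cast
    field_simp
  refine ⟨fun n => (mono_min g N n).1 * (n + 1) + (mono_min g N n).2, fun n => (mono_min g N n).2 * (n + 1),
    ?_, ?_, ?_, ?_, ?_, ?_⟩
  · exact hadd.comp (hmul.comp hfst Computable.succ) hsnd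
  · exact hmul.comp hsnd Computable.succ
  · intro n
    exact Nat.mul_pos (mono_pos g N n) (Nat.succ_pos n)
  · intro n
    exact ⟨_, mono2_least g N n, e n⟩
  · refine strictAnti_nat_of_succ_lt fun n => ?_
    show (((mono_min g N (n + 1)).1 * (n + 1 + 1) + (mono_min g N (n + 1)).2 : ℕ) : ℚ) /
        (((mono_min g N (n + 1)).2 * (n + 1 + 1) : ℕ) : ℚ) <
      (((mono_min g N n).1 * (n + 1) + (mono_min g N n).2 : ℕ) : ℚ) / (((mono_min g N n).2 * (n + 1) : ℕ) : ℚ)
    rw [e n, e (n + 1)]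
    have h1 := mono_le g N n
    have h2 : 1 / (((n + 1 : ℕ) : ℚ) + 1) < 1 / ((n : ℚ) + 1) := by
      apply one_div_lt_one_div_of_lt
      · positivity
      · push_cast; linarith
    linarith
  · have e : ∀ n : ℕ, (((mono_min g N n).1 * (n + 1) + (mono_min g N n).2 : ℕ) : ℝ) /
        (((mono_min g N n).2 * (n + 1) : ℕ) : ℝ) =
        ((mono_min g N n).1 : ℝ) / ((mono_min g N n).2 : ℝ) + 1 / ((n : ℝ) + 1) := by
      intro n
      have h1 := (hpos n).ne'
      have h2 : ((n : ℝ) + 1) ≠ 0 := by positivity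
      push_cast
      field_simp
    have hmin : Tendsto (fun n => ((mono_min g N n).1 : ℝ) / ((mono_min g N n).2 : ℝ)) atTop (𝓝 lam) := by
      have hshift : Tendsto (fun n : ℕ => (g (N + n) : ℝ) / (((N + n : ℕ) : ℝ) + 1)) atTop (𝓝 lam) := by
        have h := hlim.comp (tendsto_add_atTop_nat N)
        refine h.congr fun n => ?_
        simp only [Function.comp]
        rw [add_comm n N]
      refine tendsto_of_tendsto_of_tendsto_of_le_of_le tendsto_const_nhds hshift ?_ ?_
      · intro n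
        obtain ⟨m, hm, h⟩ := mono_attained g N n
        show lam ≤ ((mono_min g N n).1 : ℝ) / ((mono_min g N n).2 : ℝ)
        rw [h]
        have := hlow m hm
        push_cast
        exact this
      · intro n
        exact mono_last g N n
    have hsum := hmin.add (tendsto_one_div_add_atTop_nhds_zero_nat (𝕜 := ℝ))
    rw [add_zero] at hsum
    refine hsum.congr fun n => ?_
    exact (e n).symm

end Pool.Agent.Q106.PK
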