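import Mathlib
import Pool.Agent.Q106.PK.Stm
import Pool.Agent.Q106.PK.Mono2

/-!
# Project PK: assembly from the job statements
-/

namespace Pool.Agent.Q106.PK
open Filter Topology

/-- The final statement. -/
def S_MAIN : Prop := ∃ lam : ℝ,
  Tendsto (fun n : ℕ => (t n : ℝ) ^ (1 / (n : ℝ))) atTop (𝓝 lam) ∧
  (∀ m : ℕ, 36 ≤ m → ∃ k : ℕ, m ≤ k ∧ k ≤ 4 * m ∧ lam ^ k ≤ (t k : ℝ) * (k : ℝ) ^ 5) ∧
  Primrec t ∧
  ∃ g a b : ℕ → ℕ, Computable g ∧ Computable a ∧ Computable b ∧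
    (∀ m : ℕ, IsLeast {p : ℕ | ∀ k : ℕ, m + 1 ≤ k → k ≤ 4 * (m + 1) → t k * k ^ 5 * (m + 1) ^ k ≤ p ^ k} (g m)) ∧
    (∀ n, 0 < b n) ∧
    (∀ n : ℕ, ∃ μ : ℚ, IsLeast {x : ℚ | ∃ j : ℕ, 36 ≤ j ∧ j ≤ 36 + n ∧ x = (g j : ℚ) / ((j : ℚ) + 1)} μ ∧
      (a n : ℚ) / (b n : ℚ) = μ + 1 / ((n : ℚ) + 1)) ∧
    StrictAnti (fun n => (a n : ℚ) / (b n : ℚ)) ∧
    Tendsto (fun n => (a n : ℝ) / (b n : ℝ)) atTop (𝓝 lam)

theorem t_MAIN (hLIM : S_LIM) (hUP : S_UP) (hEXPL : S_EXPL) (hONE : S_ONE) (hPCOMP : S_PCOMP) (hCONV : S_CONV)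
    (hPRIM : S_PRIM) (hMASK : S_MASK) : S_MAIN := by
  obtain ⟨lam, h1, hlim⟩ := hLIM
  have ht : Primrec t := by
    have : t = cnt := funext hMASK
    rw [this]; exact hPRIM
  obtain ⟨g, hg, hg2⟩ := hPCOMP t ht.to_comp
  have hup : ∀ m : ℕ, 36 ≤ m → lam ≤ (g m : ℝ) / ((m : ℝ) + 1) := by
    intro m hm
    have hadm := (hg2 m).1
    have hm1 : (0 : ℝ) < (m : ℝ) + 1 := by positivity
    have hgpos : 0 < g m := by
      rcases Nat.eq_zero_or_pos (g m) with h0 | h0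
      · exfalso
        have := hadm (m + 1) (by omega) le_rfl
        rw [h0] at this
        have h2 : 1 ≤ t (m + 1) := hONE (m + 1) (by omega)
        have h3 : 0 < t (m + 1) * (m + 1) ^ 5 * (m + 1) ^ (m + 1) := by positivity
        rw [zero_pow (by omega)] at this
        omega
      · exact h0
    have hgR : (0 : ℝ) < (g m : ℝ) := by exact_mod_cast hgpos
    refine hUP lam hlim (m + 1) ((g m : ℝ) / ((m : ℝ) + 1)) (by omega) (by positivity) ?_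
    intro k hk1 hk2
    have := hadm k (by omega) hk1
    rw [div_pow, le_div_iff₀ (by positivity)]
    have h3 : ((t k * k ^ 5 * (m + 1) ^ k : ℕ) : ℝ) ≤ ((g m ^ k : ℕ) : ℝ) := by exact_mod_cast this
    push_cast at h3
    exact h3
  have hconv := hCONV lam g h1 hlim (fun m => (hg2 m).2) hup
  obtain ⟨a, b, ha, hb, hb0, hab, hanti, htends⟩ := t_MONO2 lam g 36 hg hup hconv
  refine ⟨lam, hlim, hEXPL lam h1 hlim, ht, g, a, b, hg, ha, hb, ?_, hb0, hab, hanti, htends⟩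
  intro m
  constructor
  · intro k hk1 hk2
    exact (hg2 m).1 k (by omega) hk1
  · intro p hp
    exact (hg2 m).2 p (fun k hk1 hk2 => hp k hk2 (by omega))

end Pool.Agent.Q106.PK
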