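import Mathlib
import Pool.Agent.Q106.PK.Stm

namespace Pool.Agent.Q106.PK.RepA

open Pool.Agent.Q106.PK

theorem t_REP : S_REP := by
  intro n A hA
  unfold t
  symm
  refine Nat.card_eq_of_bijective
    (fun P : {P : Finset (ℤ × ℤ) // IsOmino n P ∧ A P} => (Quotient.mk (ominoSetoid n) ⟨P.1, P.2.1⟩)) ⟨?_, ?_⟩
  · rintro ⟨P, hP, hAP⟩ ⟨Q, hQ, hAQ⟩ h
    have h' := Quotient.exact h
    obtain ⟨v, hv⟩ := h'
    simp only at hv
    obtain ⟨u, hu, huniq⟩ := hA P hP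
    have h0 : (0 : ℤ × ℤ) = u := huniq 0 (by show A (tr 0 P); rw [tr_zero]; exact hAP)
    have hv' : v = u := huniq v (by show A (tr v P); rw [← hv]; exact hAQ)
    apply Subtype.ext
    show P = Q
    rw [hv, hv', ← h0, tr_zero]
  · intro q
    obtain ⟨⟨P, hP⟩, rfl⟩ := Quotient.exists_rep q
    obtain ⟨u, hu, -⟩ := hA P hP
    refine ⟨⟨tr u P, isOmino_tr u hP, hu⟩, ?_⟩
    apply Quotient.sound
    exact ⟨-u, by simp only; rw [tr_tr, neg_add_cancel, tr_zero]⟩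

end Pool.Agent.Q106.PK.RepA
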