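import Mathlib
import Pool.Agent.Q106.PK.Main
import Pool.Agent.Q110.PK_DEC1
import Pool.Agent.Q110.PK_MASK
import Pool.Agent.Q110.PK_PRIM
import Pool.Agent.Q130.PK_ONE
import Pool.Agent.Q135.PK_DEC2
import Pool.Agent.Q176.PK_BOX
import Pool.Agent.Q176.PK_CUT
import Pool.Agent.Q192.PK_LIM
import Pool.Agent.Q222.PK_UP
import Pool.Agent.Q223.PK_SUPER
import Pool.Agent.Q229.PK_MONO
import Pool.Agent.Q234.PK_BOUND
import Pool.Agent.Q241.PK_LEXA
import Pool.Agent.Q265.PK_CAT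
import Pool.Agent.Q265.PK_INEQ
import Pool.Agent.Q299.PK_SPLIT
import Pool.Agent.Q299.PK_THIRD
import Pool.Agent.Q44.PK.Comp
import Pool.Agent.Q54.PK.EXPL
import Pool.Agent.Q79.PK_LEAF
import Pool.Agent.Q94.PK_PEX
import Pool.Agent.Q164.PK_CATI
import Pool.Agent.Q211.PK_BOXA
import Pool.Agent.Q211.PK_UNI
import Pool.Agent.Q299.PK_COVER
import Pool.Agent.Q299.PK_FIN
import Pool.Agent.Q106.PK.Rep
import Pool.Agent.Q106.PK.Conv
import Pool.Agent.Q106.PK.Pcomp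

/-!
# Project PK: assembly of all jobs
-/

namespace Pool.Agent.Q106.PK

theorem all_MAIN : S_MAIN := by
  have hCONV : S_CONV := ConvA.t_CONV
  have hREP : S_REP := RepA.t_REP
  have hUNI : S_UNI := t_UNI
  have hBOXA : S_BOXA := t_BOXA
  have hLEXA : S_LEXA := t_LEXA
  have hBOX : S_BOX := t_BOX
  have hCUT : S_CUT := t_CUT
  have hCOMP : S_COMP := Pool.Agent.Q44.PK.t_COMP hCUT hUNI
  have hTHIRD : S_THIRD := t_THIRD hCOMP hCUT
  have hLEAF : S_LEAF := t_LEAF hCOMP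
  have hSPLIT : S_SPLIT := t_SPLIT hTHIRD hLEAF hUNI hCUT
  have hFIN : S_FIN := t_FIN hBOX
  have hCOVER : S_COVER := t_COVER hSPLIT hBOXA
  have hCATI : S_CATI := t_CATI
  have hINEQ : S_INEQ := t_INEQ hCOVER hREP hBOXA hFIN
  have hBOUND : S_BOUND := t_BOUND hINEQ
  have hCAT : S_CAT := t_CAT hUNI
  have hSUPER : S_SUPER := t_SUPER hREP hLEXA hBOXA hFIN hCAT hCATI
  have hONE : S_ONE := t_ONE hREP hBOXA hFIN
  have hLIM : S_LIM := t_LIM hSUPER hONE hBOUND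
  have hUP : S_UP := t_UP hBOUND
  have hEXPL : S_EXPL := Pool.Agent.Q54.PK.t_EXPL hUP
  have hPEX : S_PEX := t_PEX
  have hPCOMP : S_PCOMP := PcompA.t_PCOMP hPEX
  have hPRIM : S_PRIM := t_PRIM
  have hDEC1 : S_DEC1 := t_DEC1
  have hDEC2 : S_DEC2 := t_DEC2 hCUT hDEC1
  have hMASK : S_MASK := t_MASK hREP hBOXA hBOX hDEC1 hDEC2
  exact t_MAIN hLIM hUP hEXPL hONE hPCOMP hCONV hPRIM hMASK

end Pool.Agent.Q106.PK
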