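import Mathlib
import Pool.Agent.Q106.PK.Stm

namespace Pool.Agent.Q106.PK.PcompA

open Pool.Agent.Q106.PK

/-- one summand -/
def term (f : ℕ → ℕ) (m p k : ℕ) : ℕ := (1 - (m - k)) * (f k * k ^ 5 * m ^ k - p ^ k)

/-- the sum of the summands `k < N` -/
def sm (f : ℕ → ℕ) (m p N : ℕ) : ℕ := Nat.rec 0 (fun k IH => IH + term f m p k) N

theorem term_zero (f : ℕ → ℕ) (m p k : ℕ) : term f m p k = 0 ↔ (m ≤ k → f k * k ^ 5 * m ^ k ≤ p ^ k) := by
  unfold term
  rcases Nat.lt_or_ge k m with h | h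
  · have h1 : 1 - (m - k) = 0 := by omega
    rw [h1, zero_mul]
    constructor
    · intro _ h2; omega
    · intro _; rfl
  · have h1 : 1 - (m - k) = 1 := by omega
    rw [h1, one_mul]
    constructor
    · intro h2 _; omega
    · intro h2; have := h2 h; omega

theorem sm_zero (f : ℕ → ℕ) (m p N : ℕ) : sm f m p N = 0 ↔ ∀ k, k < N → m ≤ k → f k * k ^ 5 * m ^ k ≤ p ^ k := by
  induction N with
  | zero => exact ⟨fun _ k hk => absurd hk (Nat.not_lt_zero k), fun _ => rfl⟩
  | succ N ih =>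
    have e : sm f m p (N + 1) = sm f m p N + term f m p N := rfl
    rw [e, Nat.add_eq_zero_iff, ih, term_zero]
    constructor
    · rintro ⟨h1, h2⟩ k hk
      rcases Nat.lt_or_ge k N with h | h
      · exact h1 k h
      · have : k = N := by omega
        subst this; exact h2
    · intro h
      exact ⟨fun k hk => h k (by omega), h N (by omega)⟩

theorem pow2 : Primrec₂ ((· ^ ·) : ℕ → ℕ → ℕ) := Primrec₂.unpaired'.1 Nat.Primrec.pow

theorem comp_test (f : ℕ → ℕ) (hf : Computable f) :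
    Computable fun q : ℕ × ℕ => sm f (q.1 + 1) q.2 (4 * (q.1 + 1) + 1) := by
  have hadd : Computable₂ ((· + ·) : ℕ → ℕ → ℕ) := Primrec.nat_add.to_comp
  have hmul : Computable₂ ((· * ·) : ℕ → ℕ → ℕ) := Primrec.nat_mul.to_comp
  have hsub : Computable₂ ((· - ·) : ℕ → ℕ → ℕ) := Primrec.nat_sub.to_comp
  have hpow : Computable₂ ((· ^ ·) : ℕ → ℕ → ℕ) := pow2.to_comp
  have hN : Computable fun q : ℕ × ℕ => 4 * (q.1 + 1) + 1 :=
    Computable.succ.comp (hmul.comp (Computable.const 4) (Computable.succ.comp Computable.fst))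
  have hh : Computable fun x : (ℕ × ℕ) × (ℕ × ℕ) => x.2.2 + term f (x.1.1 + 1) x.1.2 x.2.1 := by
    have hk : Computable fun x : (ℕ × ℕ) × (ℕ × ℕ) => x.2.1 := Computable.fst.comp Computable.snd
    have hI : Computable fun x : (ℕ × ℕ) × (ℕ × ℕ) => x.2.2 := Computable.snd.comp Computable.snd
    have hm : Computable fun x : (ℕ × ℕ) × (ℕ × ℕ) => x.1.1 + 1 :=
      Computable.succ.comp (Computable.fst.comp Computable.fst)
    have hp : Computable fun x : (ℕ × ℕ) × (ℕ × ℕ) => x.1.2 := Computable.snd.comp Computable.fst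
    have h1 : Computable fun x : (ℕ × ℕ) × (ℕ × ℕ) => 1 - (x.1.1 + 1 - x.2.1) :=
      hsub.comp (Computable.const 1) (hsub.comp hm hk)
    have h2 : Computable fun x : (ℕ × ℕ) × (ℕ × ℕ) => f x.2.1 * x.2.1 ^ 5 * (x.1.1 + 1) ^ x.2.1 - x.1.2 ^ x.2.1 :=
      hsub.comp (hmul.comp (hmul.comp (hf.comp hk) (hpow.comp hk (Computable.const 5))) (hpow.comp hm hk))
        (hpow.comp hp hk)
    exact hadd.comp hI (hmul.comp h1 h2)
  have h := Computable.nat_rec (f := fun q : ℕ × ℕ => 4 * (q.1 + 1) + 1) (g := fun _ : ℕ × ℕ => (0 : ℕ))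
    (h := fun (q : ℕ × ℕ) (x : ℕ × ℕ) => x.2 + term f (q.1 + 1) q.2 x.1) hN (Computable.const 0) hh.to₂
  exact h

theorem t_PCOMP (hPEX : S_PEX) : S_PCOMP := by
  intro f hf
  classical
  have hex : ∀ m, ∃ p, Adm f (m + 1) p := fun m => hPEX f (m + 1) (by omega)
  refine ⟨fun m => Nat.find (hex m), ?_, fun m => ⟨Nat.find_spec (hex m), fun p hp => Nat.find_min' (hex m) hp⟩⟩
  have htest := comp_test f hf
  have hb : Computable₂ fun m p : ℕ => decide (sm f (m + 1) p (4 * (m + 1) + 1) = 0) := by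
    have : Computable fun n : ℕ => decide (n = 0) := (Primrec.eq.decide.comp Primrec.id (Primrec.const 0)).to_comp
    exact (this.comp htest).to₂
  have hr : Partrec fun m : ℕ => Nat.rfind fun p => (Part.some (decide (sm f (m + 1) p (4 * (m + 1) + 1) = 0))) :=
    Partrec.rfind hb.partrec₂
  refine Partrec.of_eq_tot hr fun m => ?_
  rw [Nat.mem_rfind]
  constructor
  · have h1 := Nat.find_spec (hex m)
    have h2 : sm f (m + 1) (Nat.find (hex m)) (4 * (m + 1) + 1) = 0 := (sm_zero _ _ _ _).2 h1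
    simp [h2]
  · intro q hq
    have h1 := Nat.find_min (hex m) hq
    have h2 : ¬ sm f (m + 1) q (4 * (m + 1) + 1) = 0 := fun h => h1 ((sm_zero _ _ _ _).1 h)
    simp [h2]

end Pool.Agent.Q106.PK.PcompA
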